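import Pool.Agent.Q46.UP.Core

/-! # A universal partial cycle of diamondicity 3

There is a non-trivial binary universal partial cycle (word length `12`, length `512`) all of whose
windows contain three wildcards. -/

namespace Pool.Agent.Results.MP_f32aed_co.DiamondicityThree

/-- A cyclic partial word of length `N` over the alphabet `{0, …, a-1}` is a function on the integers
modulo `N`; the value `none` is the wildcard.  Its window of length `n` at position `i` covers the
word `w` if each of its characters is the wildcard or the letter of `w` at the same place. -/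
def Covers {a n N : ℕ} (u : ZMod N → Option (Fin a)) (i : ZMod N) (w : Fin n → Fin a) : Prop :=
  ∀ j : Fin n, u (i + (j : ℕ)) = none ∨ u (i + (j : ℕ)) = some (w j)

/-- Every word of length `n` is covered by exactly one window. -/
def IsUpcycle {a N : ℕ} (n : ℕ) (u : ZMod N → Option (Fin a)) : Prop :=
  ∀ w : Fin n → Fin a, ∃! i : ZMod N, Covers u i w

/-- There is at least one wildcard and at least one letter. -/
def IsNontrivial {a N : ℕ} (u : ZMod N → Option (Fin a)) : Prop :=
  (∃ i, u i = none) ∧ ∃ i, u i ≠ none

/-- Every window of length `n` contains exactly `d` wildcards. -/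
def HasDiamondicity {a N : ℕ} (n d : ℕ) (u : ZMod N → Option (Fin a)) : Prop :=
  ∀ i : ZMod N, {j : Fin n | u (i + (j : ℕ)) = none}.ncard = d

open Pool.Agent.Q46.UP in
theorem result : ∃ u : ZMod 512 → Option (Fin 2),
    IsUpcycle 12 u ∧ IsNontrivial u ∧ HasDiamondicity 12 3 u := by
  have key : ∀ (i : ZMod 512) (j : ℕ), uu ((i + (j : ZMod 512)).val) = uu (i.val + j) := by
    intro i j
    rw [ZMod.val_add, ZMod.val_natCast]
    have h1 : (i.val + j % 512) % 512 = (i.val + j) % 512 := by omega
    rw [h1]
    unfold uu
    have h2 : (i.val + j) % 512 % 4 = (i.val + j) % 4 := by omega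
    rw [h2, Nat.mod_mod]
  refine ⟨fun i => uu i.val, ?_, ⟨⟨0, ?_⟩, ⟨1, ?_⟩⟩, ?_⟩
  · intro w
    obtain ⟨i, hi, hu⟩ := unique_cover w
    refine ⟨(i.val : ZMod 512), ?_, ?_⟩
    · intro j
      have h1 := hi j
      have h2 := key (i.val : ZMod 512) j
      rw [ZMod.val_natCast, Nat.mod_eq_of_lt i.isLt] at h2
      simp only [h2]
      exact h1
    · intro b hb
      have h3 : (⟨b.val, ZMod.val_lt b⟩ : Fin 512) = i := by
        apply hu
        intro j
        have h1 := hb j
        simp only [key] at h1
        exact h1
      have h4 : b.val = i.val := by rw [← h3]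
      rw [← h4, ZMod.natCast_val, ZMod.cast_id', id]
  · decide +kernel
  · decide +kernel
  · intro i
    have h1 : {j : Fin 12 | uu ((i + ((j : ℕ) : ZMod 512)).val) = none} =
        ((Finset.univ.filter fun j : Fin 12 => (i.val % 4 + j) % 4 = 0 : Finset (Fin 12)) :
          Set (Fin 12)) := by
      ext j
      simp only [Set.mem_ofPred_eq, Finset.coe_filter, Finset.mem_univ, true_and]
      rw [key, uu_none]
      omega
    show {j : Fin 12 | uu ((i + ((j : ℕ) : ZMod 512)).val) = none}.ncard = 3
    rw [h1, Set.ncard_coe_finset]
    have h4 : i.val % 4 < 4 := Nat.mod_lt _ (by norm_num)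
    generalize i.val % 4 = r at h4
    interval_cases r <;> decide

end Pool.Agent.Results.MP_f32aed_co.DiamondicityThree
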